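import Mathlib

set_option autoImplicit false

/-!
# 2-factors with one prescribed directed cycle: the combinatorial core of the reduction
-/

namespace Pool.Agent.K7.H42.TF

/-- The underlying graph of a digraph. -/
def underlying {V : Type} (A : V → V → Prop) : SimpleGraph V where
  Adj u v := u ≠ v ∧ (A u v ∨ A v u)
  symm := ⟨fun _ _ h => ⟨h.1.symm, h.2.symm⟩⟩
  loopless := ⟨fun _ h => h.1 rfl⟩

/-- The property `Π` of a digraph with arc relation `A`: the underlying graph has a 2-factor `F`
(a spanning subgraph in which every vertex has degree two, that is, a family of disjoint cycles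
covering all the vertices), and one of the cycles of `F` is a directed cycle
`f 0, f 1, …, f (m - 1)` of the digraph. -/
def HasDirectedFactor {V : Type} (A : V → V → Prop) : Prop :=
  ∃ F : SimpleGraph V, F ≤ underlying A ∧ (∀ v, (F.neighborSet v).ncard = 2) ∧
    ∃ m : ℕ, 3 ≤ m ∧ ∃ f : ZMod m → V, Function.Injective f ∧
      ∀ i, A (f i) (f (i + 1)) ∧ F.Adj (f i) (f (i + 1))

theorem HasDirectedFactor.congr {V W : Type} (e : V ≃ W) {A : V → V → Prop} {B : W → W → Prop}
    (h : ∀ a b, A a b ↔ B (e a) (e b)) (hA : HasDirectedFactor A) : HasDirectedFactor B := by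
  obtain ⟨F, hF, hdeg, m, hm, f, hf, hfA⟩ := hA
  refine ⟨F.comap e.symm, ?_, ?_, m, hm, fun i => e (f i), e.injective.comp hf, ?_⟩
  · intro a b hab
    have h1 := hF hab
    refine ⟨fun h' => h1.1 (by rw [h']), ?_⟩
    rcases h1.2 with h2 | h2
    · left
      simpa using (h _ _).1 h2
    · right
      simpa using (h _ _).1 h2
  · intro w
    have : (F.comap e.symm).neighborSet w = e '' F.neighborSet (e.symm w) := by
      ext x
      simp only [SimpleGraph.mem_neighborSet, SimpleGraph.comap_adj, Set.mem_image]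
      constructor
      · intro hx
        exact ⟨e.symm x, hx, by simp⟩
      · rintro ⟨y, hy, rfl⟩
        simpa using hy
    rw [this, Set.ncard_image_of_injective _ e.injective]
    exact hdeg _
  · intro i
    refine ⟨(h _ _).1 (hfA i).1, ?_⟩
    simpa using (hfA i).2

/-- The labels of the vertices. -/
inductive Lab : Type
  | s : Lab
  | v (x : ℕ) (b : Bool) (p : ℕ) : Lab
  | c (p : ℕ) : Lab
  | u (k : Bool) (x : ℕ) (b : Bool) (p : ℕ) : Lab
  | d (x : ℕ) (b : Bool) (p : ℕ) : Lab
  deriving DecidableEq

namespace Lab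

/-- `(x, b)` falsifies the literal at position `p`. -/
def fals (lt : ℕ → Bool × ℕ) (x : ℕ) (b : Bool) (p : ℕ) : Prop := lt p = (!b, x)

instance (lt : ℕ → Bool × ℕ) (x : ℕ) (b : Bool) (p : ℕ) : Decidable (fals lt x b p) := by
  unfold fals; infer_instance

/-- The vertices which occur. -/
def Ok (N : ℕ) (lt : ℕ → Bool × ℕ) : Lab → Prop
  | s => True
  | v x _ p => x < N ∧ p < N
  | c p => p < N
  | u _ x _ p => x < N ∧ p < N
  | d x b p => x < N ∧ p < N ∧ ¬ fals lt x b p

/-- The layer of a vertex. -/
def rank (N : ℕ) : Lab → ℕ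
  | s => 0
  | v x _ p => 1 + x * N + p
  | c p => 1 + N * N + p / 3
  | u _ _ _ _ => 0
  | d _ _ _ => 0

/-- Vertices of the layered digraph. -/
def Main : Lab → Prop
  | s => True
  | v _ _ _ => True
  | c _ => True
  | u _ _ _ _ => False
  | d _ _ _ => False

/-- The next layer, cyclically. -/
def Next (R r r' : ℕ) : Prop := r' = r + 1 ∨ (r + 1 = R ∧ r' = 0)

/-- The partner of `v x b p` in the gadget. -/
def mate (lt : ℕ → Bool × ℕ) (x : ℕ) (b : Bool) (p : ℕ) : Lab :=
  if fals lt x b p then c p else d x b p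

/-- The arcs. -/
def A (N R : ℕ) (lt : ℕ → Bool × ℕ) (a a' : Lab) : Prop :=
  (Main a ∧ Main a' ∧ Next R (rank N a) (rank N a') ∧
    ∀ x b p b' p', a = v x b p → a' = v x b' p' → b = b') ∨
  (∃ x b p, a = u false x b p ∧ a' = u true x b p) ∨
  (∃ k x b p, a' = u k x b p ∧ (a = v x b p ∨ a = mate lt x b p))

theorem main_mate_v (lt : ℕ → Bool × ℕ) (x : ℕ) (b : Bool) (p : ℕ) :
    mate lt x b p = c p ∧ fals lt x b p ∨ mate lt x b p = d x b p ∧ ¬ fals lt x b p := by
  unfold mate
  split_ifs with h
  · exact Or.inl ⟨rfl, h⟩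
  · exact Or.inr ⟨rfl, h⟩

end Lab

open Lab

theorem ncard_two {V : Type} {S : Set V} (y z : V) (hyz : y ≠ z) (hy : y ∈ S) (hz : z ∈ S)
    (h : ∀ w ∈ S, w = y ∨ w = z) : S.ncard = 2 := by
  have : S = {y, z} := by
    ext w
    constructor
    · intro hw
      exact h w hw
    · rintro (rfl | rfl)
      · exact hy
      · exact hz
  rw [this, Set.ncard_pair hyz]

section Build

variable (N m : ℕ) (lt : ℕ → Bool × ℕ) (τ : ℕ → Bool) (q : ℕ → ℕ)

/-- The vertices visited by the directed cycle. -/
def Vis : Lab → Prop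
  | s => True
  | v x b _ => b = τ x
  | c p => p = q (p / 3)
  | u _ _ _ _ => False
  | d _ _ _ => False

/-- Half of the adjacency of the 2-factor. -/
def FA (R : ℕ) (a a' : Lab) : Prop :=
  (Vis τ q a ∧ Vis τ q a' ∧ Next R (rank N a) (rank N a')) ∨
  (∃ x b p, a = u false x b p ∧ a' = u true x b p ∧ (Vis τ q (v x b p) ∨ Vis τ q (mate lt x b p))) ∨
  (∃ k x b p, a' = u k x b p ∧ ¬ Vis τ q a ∧ (a = v x b p ∨ a = mate lt x b p))

/-- The vertices of the directed cycle, by layers. -/
def g (r : ℕ) : Lab :=
  if r = 0 then s else if r ≤ N * N then v ((r - 1) / N) (τ ((r - 1) / N)) ((r - 1) % N)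
    else c (q (r - 1 - N * N))

end Build

section Forward

variable {N m : ℕ} {lt : ℕ → Bool × ℕ} {τ : ℕ → Bool} {q : ℕ → ℕ}

theorem vis_g (hq : ∀ i < m, q i / 3 = i) {r : ℕ} (hr : r < 1 + N * N + m) :
    Vis τ q (g N τ q r) := by
  unfold g
  split_ifs with h1 h2
  · trivial
  · rfl
  · change q (r - 1 - N * N) = q (q (r - 1 - N * N) / 3)
    rw [hq _ (by omega)]

theorem rank_g (hN : 0 < N) (hq : ∀ i < m, q i / 3 = i) {r : ℕ} (hr : r < 1 + N * N + m) :
    rank N (g N τ q r) = r := by
  unfold g
  split_ifs with h1 h2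
  · rw [h1]; rfl
  · change 1 + (r - 1) / N * N + (r - 1) % N = r
    have := Nat.div_add_mod' (r - 1) N
    omega
  · change 1 + N * N + q (r - 1 - N * N) / 3 = r
    rw [hq _ (by omega)]
    omega

theorem ok_g (hN : N = 3 * m) (hm : 0 < m) (hq : ∀ i < m, q i / 3 = i) {r : ℕ}
    (hr : r < 1 + N * N + m) : Ok N lt (g N τ q r) := by
  unfold g
  split_ifs with h1 h2
  · trivial
  · refine ⟨?_, Nat.mod_lt _ (by omega)⟩
    rw [Nat.div_lt_iff_lt_mul (by omega)]
    omega
  · change q (r - 1 - N * N) < N
    have := hq (r - 1 - N * N) (by omega)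
    omega

theorem main_of_vis {a : Lab} (h : Vis τ q a) : Main a := by
  cases a <;> simp_all [Vis, Main]

theorem eq_g (hN : N = 3 * m) {a : Lab} (hv : Vis τ q a) (ho : Ok N lt a) :
    a = g N τ q (rank N a) ∧ rank N a < 1 + N * N + m := by
  cases a with
  | s => exact ⟨rfl, by simp only [rank]; omega⟩
  | v x b p =>
    obtain ⟨hx, hp⟩ := ho
    have hv' : b = τ x := hv
    have h1 : x * N + p < N * N := by
      have : (x + 1) * N ≤ N * N := Nat.mul_le_mul_right _ hx
      rw [Nat.add_mul] at this
      omega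
    have h2 : (x * N + p) / N = x := by
      rw [Nat.mul_comm, Nat.mul_add_div (by omega), Nat.div_eq_of_lt hp, Nat.add_zero]
    have h3 : (x * N + p) % N = p := by
      rw [Nat.mul_comm, Nat.mul_add_mod, Nat.mod_eq_of_lt hp]
    have hrk : rank N (v x b p) = 1 + x * N + p := rfl
    rw [hrk]
    constructor
    · unfold g
      rw [if_neg (by omega), if_pos (by omega)]
      have h4 : 1 + x * N + p - 1 = x * N + p := by omega
      rw [h4, h2, h3, hv']
    · omega
  | c p =>
    have hp : p < N := ho
    have hv' : p = q (p / 3) := hv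
    have hrk : rank N (c p) = 1 + N * N + p / 3 := rfl
    rw [hrk]
    constructor
    · unfold g
      rw [if_neg (by omega), if_neg (by omega)]
      have h4 : 1 + N * N + p / 3 - 1 - N * N = p / 3 := by omega
      rw [h4, ← hv']
    · omega
  | u k x b p => exact hv.elim
  | d x b p => exact hv.elim

/-- A satisfying assignment gives a 2-factor with a directed cycle. -/
theorem forward (hN : N = 3 * m) (hm : 0 < m) (hlt : ∀ p < N, (lt p).2 < N)
    (hq : ∀ i < m, q i / 3 = i) (hsat : ∀ i < m, τ (lt (q i)).2 = (lt (q i)).1) :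
    HasDirectedFactor (fun a a' : {a // Ok N lt a} => A N (1 + N * N + m) lt a a') := by
  set R := 1 + N * N + m with hR
  have hNN : 9 ≤ N * N := by nlinarith
  have hR3 : 3 ≤ R := by omega
  have hN0 : 0 < N := by omega
  -- no two visited vertices in a gadget
  have hexc : ∀ x b p, p < N → Vis τ q (v x b p) → ¬ Vis τ q (mate lt x b p) := by
    intro x b p hp h1 h2
    rcases main_mate_v lt x b p with ⟨h3, h4⟩ | ⟨h3, h4⟩
    · rw [h3] at h2
      have h5 : p = q (p / 3) := h2
      have h6 := hsat (p / 3) (by omega)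
      rw [← h5] at h6
      rw [fals] at h4
      rw [h4] at h6
      have h7 : b = τ x := h1
      simp only at h6
      rw [← h7] at h6
      cases b <;> simp at h6
    · rw [h3] at h2
      exact h2
  let F : SimpleGraph {a // Ok N lt a} :=
    { Adj := fun a a' => a ≠ a' ∧ (FA N lt τ q R a a' ∨ FA N lt τ q R a' a)
      symm := ⟨fun _ _ h => ⟨h.1.symm, h.2.symm⟩⟩
      loopless := ⟨fun _ h => h.1 rfl⟩ }
  have hFA : ∀ a a' : Lab, FA N lt τ q R a a' → A N R lt a a' := by
    rintro a a' (⟨h1, h2, h3⟩ | ⟨x, b, p, rfl, rfl, h⟩ | ⟨k, x, b, p, rfl, _, h⟩)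
    · refine Or.inl ⟨main_of_vis h1, main_of_vis h2, h3, ?_⟩
      rintro x b p b' p' rfl rfl
      have h4 : b = τ x := h1
      have h5 : b' = τ x := h2
      rw [h4, h5]
    · exact Or.inr (Or.inl ⟨x, b, p, rfl, rfl⟩)
    · exact Or.inr (Or.inr ⟨k, x, b, p, rfl, h⟩)
  -- membership of the mates
  have hmate : ∀ x b p, x < N → p < N → Ok N lt (mate lt x b p) := by
    intro x b p hx hp
    rcases main_mate_v lt x b p with ⟨h3, h4⟩ | ⟨h3, h4⟩
    · rw [h3]; exact hp
    · rw [h3]; exact ⟨hx, hp, h4⟩
  have hmne : ∀ x b p, mate lt x b p ≠ v x b p ∧ ∀ k x' b' p', mate lt x b p ≠ u k x' b' p' := by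
    intro x b p
    rcases main_mate_v lt x b p with ⟨h3, h4⟩ | ⟨h3, h4⟩ <;> rw [h3] <;> simp
  -- an unvisited vertex adjacent to exactly one gadget pair
  have hdeg2 : ∀ (a : {a // Ok N lt a}) (x : ℕ) (b : Bool) (p : ℕ), ¬ Vis τ q a.1 →
      x < N → p < N → (∀ k x' b' p', a.1 ≠ u k x' b' p') →
      (a.1 = v x b p ∨ a.1 = mate lt x b p) →
      (∀ x' b' p', x' < N → p' < N → (a.1 = v x' b' p' ∨ a.1 = mate lt x' b' p') →
        x' = x ∧ b' = b ∧ p' = p) →
      (F.neighborSet a).ncard = 2 := by
    intro a x b p hv hx hp hu ha huniq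
    refine ncard_two ⟨u false x b p, hx, hp⟩ ⟨u true x b p, hx, hp⟩ ?_ ?_ ?_ ?_
    · intro h
      have := congrArg Subtype.val h
      simp at this
    · refine ⟨fun h => hu _ _ _ _ (congrArg Subtype.val h), Or.inl (Or.inr (Or.inr
        ⟨false, x, b, p, rfl, hv, ha⟩))⟩
    · refine ⟨fun h => hu _ _ _ _ (congrArg Subtype.val h), Or.inl (Or.inr (Or.inr
        ⟨true, x, b, p, rfl, hv, ha⟩))⟩
    · rintro ⟨w, hw⟩ ⟨_, h | h⟩
      · rcases h with ⟨h1, _⟩ | ⟨x', b', p', h1, _⟩ | ⟨k, x', b', p', h1, _, h3⟩
        · exact absurd h1 hv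
        · exact absurd h1 (hu _ _ _ _)
        · have h1' : w = u k x' b' p' := h1
          subst h1'
          obtain ⟨rfl, rfl, rfl⟩ := huniq x' b' p' hw.1 hw.2 h3
          cases k
          · exact Or.inl rfl
          · exact Or.inr rfl
      · rcases h with ⟨_, h1, _⟩ | ⟨x', b', p', _, h1, _⟩ | ⟨k, x', b', p', h1, _⟩
        · exact absurd h1 hv
        · exact absurd h1 (hu _ _ _ _)
        · exact absurd h1 (hu _ _ _ _)
  refine ⟨F, ?_, ?_, R, hR3, ?_⟩
  · intro a a' h
    refine ⟨h.1, h.2.imp (hFA _ _) (hFA _ _)⟩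
  · -- degrees
    rintro ⟨a, ha⟩
    by_cases hv : Vis τ q a
    · -- visited vertices
      obtain ⟨hag, har⟩ := eq_g hN hv ha
      set r := rank N a with hr
      let y := if r + 1 = R then 0 else r + 1
      let z := if r = 0 then R - 1 else r - 1
      have hy : y < R := by simp only [y]; split_ifs <;> omega
      have hz : z < R := by simp only [z]; split_ifs <;> omega
      have hry := rank_g (τ := τ) hN0 hq hy
      have hrz := rank_g (τ := τ) hN0 hq hz
      have hny : Next R r y := by
        simp only [y, Next]; split_ifs <;> omega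
      have hnz : Next R z r := by
        simp only [z, Next]; split_ifs <;> omega
      have hyr : y ≠ r := by simp only [y]; split_ifs <;> omega
      have hzr : z ≠ r := by simp only [z]; split_ifs <;> omega
      have hyz : y ≠ z := by simp only [y, z]; split_ifs <;> omega
      refine ncard_two ⟨g N τ q y, ok_g hN hm hq hy⟩ ⟨g N τ q z, ok_g hN hm hq hz⟩ ?_ ?_ ?_ ?_
      · intro h
        have h1 := congrArg (fun t => rank N (Subtype.val t)) h
        simp only at h1
        rw [hry, hrz] at h1
        exact hyz h1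
      · refine ⟨fun h => ?_, Or.inl (Or.inl ⟨hv, vis_g hq hy, ?_⟩)⟩
        · have h1 := congrArg (fun t => rank N (Subtype.val t)) h
          simp only at h1
          rw [hry] at h1
          exact hyr h1.symm
        · rw [hry]; exact hny
      · refine ⟨fun h => ?_, Or.inr (Or.inl ⟨vis_g hq hz, hv, ?_⟩)⟩
        · have h1 := congrArg (fun t => rank N (Subtype.val t)) h
          simp only at h1
          rw [hrz] at h1
          exact hzr h1.symm
        · rw [hrz]; exact hnz
      · rintro ⟨w, hw⟩ ⟨_, h | h⟩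
        · rcases h with ⟨_, h1, h2⟩ | ⟨x', b', p', h1, _⟩ | ⟨k, x', b', p', _, h1, _⟩
          · obtain ⟨h3, h4⟩ := eq_g hN h1 hw
            left
            apply Subtype.ext
            have h5 : rank N w = y := by
              have h6 : rank N w = r + 1 ∨ (r + 1 = R ∧ rank N w = 0) := h2
              have h4' : rank N w < 1 + N * N + m := h4
              simp only [y]
              split_ifs <;> omega
            rw [h5] at h3
            exact h3
          · have h1' : a = u false x' b' p' := h1
            rw [h1'] at hv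
            exact hv.elim
          · exact absurd hv h1
        · rcases h with ⟨h1, _, h2⟩ | ⟨x', b', p', _, h1, _⟩ | ⟨k, x', b', p', h1, _⟩
          · obtain ⟨h3, h4⟩ := eq_g hN h1 hw
            right
            apply Subtype.ext
            have h5 : rank N w = z := by
              have h6 : r = rank N w + 1 ∨ (rank N w + 1 = R ∧ r = 0) := h2
              have h4' : rank N w < 1 + N * N + m := h4
              simp only [z]
              split_ifs <;> omega
            rw [h5] at h3
            exact h3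
          · have h1' : a = u true x' b' p' := h1
            rw [h1'] at hv
            exact hv.elim
          · have h1' : a = u k x' b' p' := h1
            rw [h1'] at hv
            exact hv.elim
    · cases a with
      | s => exact absurd trivial hv
      | v x b p =>
        refine hdeg2 ⟨_, ha⟩ x b p hv ha.1 ha.2 (by simp) (Or.inl rfl) ?_
        rintro x' b' p' _ _ (h | h)
        · simp only [v.injEq] at h
          exact ⟨h.1.symm, h.2.1.symm, h.2.2.symm⟩
        · exfalso
          rcases main_mate_v lt x' b' p' with ⟨h3, h4⟩ | ⟨h3, h4⟩ <;> rw [h3] at h <;>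
            simp at h
      | c p =>
        have hp : p < N := ha
        refine hdeg2 ⟨_, ha⟩ (lt p).2 (!(lt p).1) p hv (hlt p hp) hp (by simp) (Or.inr ?_) ?_
        · have : fals lt (lt p).2 (!(lt p).1) p := by simp [fals]
          simp [mate, this]
        · rintro x' b' p' _ _ (h | h)
          · simp at h
          · rcases main_mate_v lt x' b' p' with ⟨h3, h4⟩ | ⟨h3, h4⟩ <;> rw [h3] at h
            · simp only [c.injEq] at h
              subst h
              rw [fals] at h4
              rw [h4]
              simp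
            · simp at h
      | u k x b p =>
        obtain ⟨hx, hp⟩ := id ha
        -- the neighbours of `u k x b p`
        have hnb : ∀ w : {a // Ok N lt a}, F.Adj ⟨u k x b p, ha⟩ w →
            (w.1 = u (!k) x b p ∧ (Vis τ q (v x b p) ∨ Vis τ q (mate lt x b p))) ∨
            (w.1 = v x b p ∧ ¬ Vis τ q (v x b p)) ∨
            (w.1 = mate lt x b p ∧ ¬ Vis τ q (mate lt x b p)) := by
          rintro ⟨w, hw⟩ ⟨_, h | h⟩
          · rcases h with ⟨h1, _⟩ | ⟨x', b', p', h1, h2, h3⟩ | ⟨k', x', b', p', h2, h3, h4⟩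
            · exact h1.elim
            · simp only [u.injEq] at h1
              obtain ⟨rfl, rfl, rfl, rfl⟩ := h1
              exact Or.inl ⟨h2, h3⟩
            · rcases h4 with h4 | h4
              · simp at h4
              · exact absurd h4.symm ((hmne _ _ _).2 _ _ _ _)
          · rcases h with ⟨_, h1, _⟩ | ⟨x', b', p', h1, h2, h3⟩ | ⟨k', x', b', p', h2, h3, h4⟩
            · exact h1.elim
            · simp only [u.injEq] at h2
              obtain ⟨rfl, rfl, rfl, rfl⟩ := h2
              exact Or.inl ⟨h1, h3⟩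
            · simp only [u.injEq] at h2
              obtain ⟨rfl, rfl, rfl, rfl⟩ := h2
              change ¬ Vis τ q w at h3
              change w = _ ∨ w = _ at h4
              rcases h4 with rfl | rfl
              · exact Or.inr (Or.inl ⟨rfl, h3⟩)
              · exact Or.inr (Or.inr ⟨rfl, h3⟩)
        have hau : ∀ (h : Vis τ q (v x b p) ∨ Vis τ q (mate lt x b p)),
            F.Adj ⟨u k x b p, ha⟩ ⟨u (!k) x b p, hx, hp⟩ := by
          intro h
          refine ⟨fun h' => ?_, ?_⟩
          · have := congrArg Subtype.val h'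
            simp at this
          · cases k
            · exact Or.inl (Or.inr (Or.inl ⟨x, b, p, rfl, rfl, h⟩))
            · exact Or.inr (Or.inr (Or.inl ⟨x, b, p, rfl, rfl, h⟩))
        have hav : ¬ Vis τ q (v x b p) → F.Adj ⟨u k x b p, ha⟩ ⟨v x b p, hx, hp⟩ := by
          intro h
          refine ⟨fun h' => ?_, Or.inr (Or.inr (Or.inr ⟨k, x, b, p, rfl, h, Or.inl rfl⟩))⟩
          have := congrArg Subtype.val h'
          simp at this
        have ham : ¬ Vis τ q (mate lt x b p) →
            F.Adj ⟨u k x b p, ha⟩ ⟨mate lt x b p, hmate x b p hx hp⟩ := by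
          intro h
          refine ⟨fun h' => ?_, Or.inr (Or.inr (Or.inr ⟨k, x, b, p, rfl, h, Or.inr rfl⟩))⟩
          exact (hmne x b p).2 _ _ _ _ (congrArg Subtype.val h').symm
        by_cases h1 : Vis τ q (v x b p)
        · have h2 := hexc x b p hp h1
          refine ncard_two _ _ ?_ (ham h2) (hau (Or.inl h1)) ?_
          · intro h
            exact (hmne x b p).2 _ _ _ _ (congrArg Subtype.val h)
          · intro w hw
            rcases hnb w hw with ⟨h3, _⟩ | ⟨_, h3⟩ | ⟨h3, _⟩
            · exact Or.inr (Subtype.ext h3)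
            · exact absurd h1 h3
            · exact Or.inl (Subtype.ext h3)
        · by_cases h2 : Vis τ q (mate lt x b p)
          · refine ncard_two _ _ ?_ (hav h1) (hau (Or.inr h2)) ?_
            · intro h
              have := congrArg Subtype.val h
              simp at this
            · intro w hw
              rcases hnb w hw with ⟨h3, _⟩ | ⟨h3, _⟩ | ⟨_, h3⟩
              · exact Or.inr (Subtype.ext h3)
              · exact Or.inl (Subtype.ext h3)
              · exact absurd h2 h3
          · refine ncard_two _ _ ?_ (hav h1) (ham h2) ?_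
            · intro h
              exact (hmne x b p).1 (congrArg Subtype.val h).symm
            · intro w hw
              rcases hnb w hw with ⟨_, h3 | h3⟩ | ⟨h3, _⟩ | ⟨h3, _⟩
              · exact absurd h3 h1
              · exact absurd h3 h2
              · exact Or.inl (Subtype.ext h3)
              · exact Or.inr (Subtype.ext h3)
      | d x b p =>
        obtain ⟨hx, hp, hf⟩ := id ha
        refine hdeg2 ⟨_, ha⟩ x b p hv hx hp (by simp) (Or.inr ?_) ?_
        · simp [mate, hf]
        · rintro x' b' p' _ _ (h | h)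
          · simp at h
          · rcases main_mate_v lt x' b' p' with ⟨h3, h4⟩ | ⟨h3, h4⟩ <;> rw [h3] at h
            · simp at h
            · simp only [d.injEq] at h
              exact ⟨h.1.symm, h.2.1.symm, h.2.2.symm⟩
  · -- the directed cycle
    have : NeZero R := ⟨by omega⟩
    have hval : ∀ i : ZMod R, i.val < R := fun i => ZMod.val_lt i
    refine ⟨fun i => ⟨g N τ q i.val, ok_g hN hm hq (hval i)⟩, ?_, ?_⟩
    · intro i j hij
      have h1 := congrArg (fun t => rank N (Subtype.val t)) hij
      simp only at h1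
      rw [rank_g hN0 hq (hval i), rank_g hN0 hq (hval j)] at h1
      exact ZMod.val_injective R h1
    · intro i
      have hnext : Next R i.val (i + 1).val := by
        have h1 : (i + 1).val = (i.val + 1) % R := by
          rw [ZMod.val_add, ZMod.val_one'' (by omega)]
        have h2 := hval i
        rw [h1]
        rcases Nat.lt_or_ge (i.val + 1) R with h3 | h3
        · rw [Nat.mod_eq_of_lt h3]; exact Or.inl rfl
        · have : i.val + 1 = R := by omega
          rw [this, Nat.mod_self]
          exact Or.inr ⟨this, rfl⟩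
      have hfa : FA N lt τ q R (g N τ q i.val) (g N τ q (i + 1).val) := by
        refine Or.inl ⟨vis_g hq (hval i), vis_g hq (hval _), ?_⟩
        rw [rank_g hN0 hq (hval i), rank_g hN0 hq (hval _)]
        exact hnext
      refine ⟨hFA _ _ hfa, ⟨fun h => ?_, Or.inl hfa⟩⟩
      have h1 := congrArg (fun t => rank N (Subtype.val t)) h
      simp only at h1
      rw [rank_g hN0 hq (hval i), rank_g hN0 hq (hval _)] at h1
      rw [← h1] at hnext
      rcases hnext with h | h
      · omega
      · omega

end Forward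

section Backward

variable {N m : ℕ} {lt : ℕ → Bool × ℕ}

theorem A_u_true {R : ℕ} {x : ℕ} {b : Bool} {p : ℕ} {a' : Lab}
    (h : A N R lt (u true x b p) a') : False := by
  rcases h with ⟨h1, _⟩ | ⟨x', b', p', h1, _⟩ | ⟨k, x', b', p', _, h1 | h1⟩
  · exact h1
  · simp at h1
  · simp at h1
  · rcases main_mate_v lt x' b' p' with ⟨h3, _⟩ | ⟨h3, _⟩ <;> rw [h3] at h1 <;> simp at h1

theorem A_u_false {R : ℕ} {x : ℕ} {b : Bool} {p : ℕ} {a' : Lab}
    (h : A N R lt (u false x b p) a') : a' = u true x b p := by
  rcases h with ⟨h1, _⟩ | ⟨x', b', p', h1, h2⟩ | ⟨k, x', b', p', _, h1 | h1⟩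
  · exact h1.elim
  · simp only [u.injEq, true_and] at h1
    obtain ⟨rfl, rfl, rfl⟩ := h1
    exact h2
  · simp at h1
  · rcases main_mate_v lt x' b' p' with ⟨h3, _⟩ | ⟨h3, _⟩ <;> rw [h3] at h1 <;> simp at h1

theorem eq_v_of_rank {a : Lab} (hN : 0 < N) (ha : Ok N lt a) (hM : Main a) {x p : ℕ} (hx : x < N)
    (hp : p < N) (hr : rank N a = 1 + x * N + p) : ∃ b, a = v x b p := by
  have h1 : x * N + p < N * N := by
    have : (x + 1) * N ≤ N * N := Nat.mul_le_mul_right _ hx
    rw [Nat.add_mul] at this
    omega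
  cases a with
  | s =>
    have : rank N s = 0 := rfl
    omega
  | v x' b p' =>
    have h2 : rank N (v x' b p') = 1 + x' * N + p' := rfl
    obtain ⟨hx', hp'⟩ := ha
    have h3 : x' * N + p' = x * N + p := by omega
    have h4 : (x' * N + p') / N = (x * N + p) / N := by rw [h3]
    rw [Nat.mul_comm x' N, Nat.mul_comm x N, Nat.mul_add_div hN, Nat.mul_add_div hN,
      Nat.div_eq_of_lt hp', Nat.div_eq_of_lt hp] at h4
    have h5 : x' = x := by omega
    subst h5
    have h6 : p' = p := by omega
    subst h6
    exact ⟨b, rfl⟩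
  | c p' =>
    have h2 : rank N (c p') = 1 + N * N + p' / 3 := rfl
    omega
  | u k x' b p' => exact hM.elim
  | d x' b p' => exact hM.elim

theorem eq_c_of_rank {a : Lab} (ha : Ok N lt a) (hM : Main a) {i : ℕ}
    (hr : rank N a = 1 + N * N + i) : ∃ q, a = c q ∧ q / 3 = i ∧ q < N := by
  cases a with
  | s =>
    have : rank N s = 0 := rfl
    omega
  | v x' b p' =>
    have h2 : rank N (v x' b p') = 1 + x' * N + p' := rfl
    obtain ⟨hx', hp'⟩ := ha
    have : (x' + 1) * N ≤ N * N := Nat.mul_le_mul_right _ hx'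
    rw [Nat.add_mul] at this
    omega
  | c p' =>
    have h2 : rank N (c p') = 1 + N * N + p' / 3 := rfl
    exact ⟨p', rfl, by omega, ha⟩
  | u k x' b p' => exact hM.elim
  | d x' b p' => exact hM.elim

/-- A 2-factor with a directed cycle gives a satisfying assignment. -/
theorem backward (hN : N = 3 * m) (hm : 0 < m) (hlt : ∀ p < N, (lt p).2 < N)
    (h : HasDirectedFactor (fun a a' : {a // Ok N lt a} => A N (1 + N * N + m) lt a a')) :
    ∃ τ : ℕ → Bool, ∀ i < m, ∃ p, p / 3 = i ∧ τ (lt p).2 = (lt p).1 := by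
  obtain ⟨F, hF, hdeg, k, hk, f, hf, hfA⟩ := h
  set R := 1 + N * N + m with hR
  have hN0 : 0 < N := by omega
  have : NeZero k := ⟨by omega⟩
  have hnt : ∀ i x b p, (f i).1 ≠ u true x b p := by
    intro i x b p h
    have h1 : A N R lt (f i).1 (f (i + 1)).1 := (hfA i).1
    rw [h] at h1
    exact A_u_true h1
  have hnu : ∀ i κ x b p, (f i).1 ≠ u κ x b p := by
    intro i κ x b p h
    cases κ
    · have h1 : A N R lt (f i).1 (f (i + 1)).1 := (hfA i).1
      rw [h] at h1
      exact hnt _ _ _ _ (A_u_false h1)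
    · exact hnt _ _ _ _ h
  have hstep : ∀ i, Main (f i).1 ∧ Next R (rank N (f i).1) (rank N (f (i + 1)).1) ∧
      ∀ x b p b' p', (f i).1 = v x b p → (f (i + 1)).1 = v x b' p' → b = b' := by
    intro i
    rcases (hfA i).1 with ⟨h1, _, h2, h3⟩ | ⟨x', b', p', h1, _⟩ | ⟨κ, x', b', p', h1, _⟩
    · exact ⟨h1, h2, h3⟩
    · exact absurd h1 (hnu _ _ _ _ _)
    · exact absurd h1 (hnu _ _ _ _ _)
  -- the start
  obtain ⟨i0, hi0⟩ : ∃ i0, rank N (f i0).1 = 0 := by
    obtain ⟨i, hi⟩ := Finite.exists_max (fun i : ZMod k => rank N (f i).1)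
    refine ⟨i + 1, ?_⟩
    have h1 := (hstep i).2.1
    have h2 := hi (i + 1)
    rcases h1 with h1 | h1
    · omega
    · exact h1.2
  have hrank : ∀ r : ℕ, r < R → rank N (f (i0 + (r : ZMod k))).1 = r := by
    intro r
    induction r with
    | zero => intro _; simpa using hi0
    | succ r ih =>
      intro hr
      have h1 := ih (by omega)
      have h2 := (hstep (i0 + (r : ZMod k))).2.1
      have h3 : i0 + (r : ZMod k) + 1 = i0 + ((r + 1 : ℕ) : ZMod k) := by push_cast; ring
      rw [h1, h3] at h2
      rcases h2 with h2 | h2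
      · exact h2
      · omega
  -- the vertices of the variable part
  have hb : ∀ x p : ℕ, ∃ b, x < N → p < N →
      (f (i0 + ((1 + x * N + p : ℕ) : ZMod k))).1 = v x b p := by
    intro x p
    by_cases hx : x < N
    · by_cases hp : p < N
      · have h1 : x * N + p < N * N := by
          have : (x + 1) * N ≤ N * N := Nat.mul_le_mul_right _ hx
          rw [Nat.add_mul] at this
          omega
        obtain ⟨b, hb⟩ := eq_v_of_rank (lt := lt) hN0 (f (i0 + ((1 + x * N + p : ℕ) : ZMod k))).2
          (hstep _).1 hx hp (hrank _ (by omega))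
        exact ⟨b, fun _ _ => hb⟩
      · exact ⟨true, fun _ h => absurd h hp⟩
    · exact ⟨true, fun h => absurd h hx⟩
  choose B hB using hb
  have hBc : ∀ x p, x < N → p < N → B x p = B x 0 := by
    intro x p hx
    induction p with
    | zero => intro _; rfl
    | succ p ih =>
      intro hp
      have h1 := hB x p hx (by omega)
      have h2 := hB x (p + 1) hx hp
      have h3 : i0 + ((1 + x * N + (p + 1) : ℕ) : ZMod k) =
          i0 + ((1 + x * N + p : ℕ) : ZMod k) + 1 := by push_cast; ring
      rw [h3] at h2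
      rw [← ih (by omega)]
      exact ((hstep _).2.2 x _ p _ (p + 1) h1 h2).symm
  -- the neighbours of the vertices of the directed cycle
  have hnbr : ∀ i (y : {a // Ok N lt a}), F.Adj (f i) y → y = f (i + 1) ∨ y = f (i - 1) := by
    intro i y hy
    have h1 : F.Adj (f i) (f (i + 1)) := (hfA i).2
    have h2 : F.Adj (f i) (f (i - 1)) := by
      have := (hfA (i - 1)).2
      rw [sub_add_cancel] at this
      exact this.symm
    have h3 : f (i + 1) ≠ f (i - 1) := by
      intro h
      have h4 := hf h
      have h5 : (2 : ZMod k) = 0 := by linear_combination h4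
      have h6 : ((2 : ℕ) : ZMod k) = 0 := by exact_mod_cast h5
      rw [ZMod.natCast_eq_zero_iff] at h6
      have := Nat.le_of_dvd (by norm_num) h6
      omega
    obtain ⟨s1, s2, h4, h5⟩ := Set.ncard_eq_two.1 (hdeg (f i))
    have e1 : f (i + 1) ∈ ({s1, s2} : Set _) := h5 ▸ h1
    have e2 : f (i - 1) ∈ ({s1, s2} : Set _) := h5 ▸ h2
    have e3 : y ∈ ({s1, s2} : Set _) := h5 ▸ hy
    simp only [Set.mem_insert_iff, Set.mem_singleton_iff] at e1 e2 e3
    rcases e1 with e1 | e1 <;> rcases e2 with e2 | e2 <;> rcases e3 with e3 | e3 <;>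
      simp_all
  refine ⟨fun x => B x 0, fun i hi => ?_⟩
  obtain ⟨q, hq, hqi, hqN⟩ := eq_c_of_rank (lt := lt)
    (f (i0 + ((1 + N * N + i : ℕ) : ZMod k))).2 (hstep _).1 (hrank _ (by omega))
  refine ⟨q, hqi, ?_⟩
  by_contra hcon
  set x := (lt q).2 with hx
  have hxN : x < N := hlt q hqN
  have hfals : fals lt x (B x 0) q := by
    rw [fals]
    ext
    · change (lt q).1 = !B x 0
      simp only at hcon
      cases h1 : (lt q).1 <;> cases h2 : B x 0 <;> simp_all
    · rfl
  have hv := hB x q hxN hqN
  rw [hBc x q hxN hqN] at hv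
  let w : {a // Ok N lt a} := ⟨u false x (B x 0) q, hxN, hqN⟩
  have hnw : ∀ i, ¬ F.Adj w (f i) := by
    intro i h
    rcases hnbr i w h.symm with h1 | h1
    · exact hnu _ _ _ _ _ (congrArg Subtype.val h1).symm
    · exact hnu _ _ _ _ _ (congrArg Subtype.val h1).symm
  have hsub : F.neighborSet w ⊆ {⟨u true x (B x 0) q, hxN, hqN⟩} := by
    rintro ⟨y, hy⟩ hadj
    have hadj' : F.Adj w ⟨y, hy⟩ := hadj
    rw [Set.mem_singleton_iff]
    apply Subtype.ext
    change y = u true x (B x 0) q
    rcases (hF hadj').2 with h1 | h1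
    · exact A_u_false h1
    · exfalso
      rcases h1 with ⟨_, h1, _⟩ | ⟨x', b', p', _, h1⟩ | ⟨κ, x', b', p', h1, h2⟩
      · exact h1
      · simp [w] at h1
      · simp only [w, u.injEq] at h1
        obtain ⟨_, rfl, rfl, rfl⟩ := h1
        rcases h2 with h2 | h2
        · refine hnw (i0 + ((1 + x * N + q : ℕ) : ZMod k)) ?_
          have : f (i0 + ((1 + x * N + q : ℕ) : ZMod k)) = ⟨y, hy⟩ := by
            apply Subtype.ext
            rw [hv]
            exact h2.symm
          rw [this]
          exact hadj'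
        · refine hnw (i0 + ((1 + N * N + i : ℕ) : ZMod k)) ?_
          have : f (i0 + ((1 + N * N + i : ℕ) : ZMod k)) = ⟨y, hy⟩ := by
            apply Subtype.ext
            rw [hq]
            have h3 : mate lt x (B x 0) q = c q := by simp [mate, hfals]
            rw [← h3]
            exact h2.symm
          rw [this]
          exact hadj'
  have h1 := Set.ncard_le_ncard hsub
  rw [hdeg w, Set.ncard_singleton] at h1
  omega

end Backward

end Pool.Agent.K7.H42.TF
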