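import Pool.Agent.K7.H42.TF.Red

set_option autoImplicit false

/-!
# 2-factors with one prescribed directed cycle: the reduction is polynomial
-/

namespace Pool.Agent.K7.H42.TF

open Pool.Agent.NPC Pool.Agent.H622R2 Lab

variable {α : Type} [TEnc α]

theorem pEnc : NPC.Poly (fun a : Lab => enc a) :=
  NPC.Poly.of_toT (NPC.Poly.toT' (NPC.Poly.id (α := Lab)))

theorem pLab {f : α → Lab} (h : NPC.Poly (fun q => enc (f q))) : NPC.Poly f :=
  NPC.Poly.of_toT (NPC.Poly.toT' h)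

theorem pV {x p : α → ℕ} {b : α → Bool} (hx : NPC.Poly x) (hb : NPC.Poly b) (hp : NPC.Poly p) :
    NPC.Poly (fun q => v (x q) (b q) (p q)) :=
  pLab (NPC.Poly.pair (NPC.Poly.const 1) (NPC.Poly.pair hx (NPC.Poly.pair hb hp)))

theorem pU0 {x p : α → ℕ} {b : α → Bool} (hx : NPC.Poly x) (hb : NPC.Poly b) (hp : NPC.Poly p) :
    NPC.Poly (fun q => u false (x q) (b q) (p q)) :=
  pLab (NPC.Poly.pair (NPC.Poly.const 3) (NPC.Poly.pair hx (NPC.Poly.pair hb hp)))

theorem pU1 {x p : α → ℕ} {b : α → Bool} (hx : NPC.Poly x) (hb : NPC.Poly b) (hp : NPC.Poly p) :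
    NPC.Poly (fun q => u true (x q) (b q) (p q)) :=
  pLab (NPC.Poly.pair (NPC.Poly.const 4) (NPC.Poly.pair hx (NPC.Poly.pair hb hp)))

theorem pD {x p : α → ℕ} {b : α → Bool} (hx : NPC.Poly x) (hb : NPC.Poly b) (hp : NPC.Poly p) :
    NPC.Poly (fun q => d (x q) (b q) (p q)) :=
  pLab (NPC.Poly.pair (NPC.Poly.const 5) (NPC.Poly.pair hx (NPC.Poly.pair hb hp)))

theorem pC {p : α → ℕ} (hp : NPC.Poly p) : NPC.Poly (fun q => c (p q)) :=
  pLab (NPC.Poly.pair (NPC.Poly.const 2) (NPC.Poly.pair (NPC.Poly.const 0)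
    (NPC.Poly.pair (NPC.Poly.const false) hp)))

theorem pFalsT {ls : α → List (Bool × ℕ)} {t : α → ℕ × ℕ × Bool × ℕ} (hls : NPC.Poly ls)
    (ht : NPC.Poly t) : NPC.Poly (fun q => falsT (ls q) (t q)) :=
  Poly.decide_eq (Poly.getD (d := fun _ => ((true, 0) : Bool × ℕ)) hls
    (Poly.snd (Poly.snd (Poly.snd ht))) (NPC.Poly.const _))
    (Poly.pair (Poly.not (Poly.fst (Poly.snd (Poly.snd ht)))) (Poly.fst (Poly.snd ht)))

theorem pRankT {N : α → ℕ} {t : α → ℕ × ℕ × Bool × ℕ} (hN : NPC.Poly N) (ht : NPC.Poly t) :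
    NPC.Poly (fun q => rankT (N q) (t q)) := by
  have h0 : NPC.Poly (fun q => (t q).1) := Poly.fst ht
  have hx : NPC.Poly (fun q => (t q).2.1) := Poly.fst (Poly.snd ht)
  have hp : NPC.Poly (fun q => (t q).2.2.2) := Poly.snd (Poly.snd (Poly.snd ht))
  exact Poly.ite (Poly.decide_eq h0 (NPC.Poly.const 0)) (NPC.Poly.const 0)
    (Poly.ite (Poly.decide_eq h0 (NPC.Poly.const 1))
      (Poly.add (Poly.add (NPC.Poly.const 1) (Poly.mul hx hN)) hp)
      (Poly.ite (Poly.decide_eq h0 (NPC.Poly.const 2))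
        (Poly.add (Poly.add (NPC.Poly.const 1) (Poly.mul hN hN)) (Poly.div hp (NPC.Poly.const 3)))
        (NPC.Poly.const 0)))

theorem pArcT {N R : α → ℕ} {ls : α → List (Bool × ℕ)} {t t' : α → ℕ × ℕ × Bool × ℕ}
    (hN : NPC.Poly N) (hR : NPC.Poly R) (hls : NPC.Poly ls) (ht : NPC.Poly t) (ht' : NPC.Poly t') :
    NPC.Poly (fun q => arcT (N q) (R q) (ls q) (t q) (t' q)) := by
  have r := pRankT hN ht
  have r' := pRankT hN ht'
  have f := pFalsT hls ht'
  have k : NPC.Poly (fun q => (t q).1) := Poly.fst ht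
  have k' : NPC.Poly (fun q => (t' q).1) := Poly.fst ht'
  have w : NPC.Poly (fun q => (t q).2) := Poly.snd ht
  have w' : NPC.Poly (fun q => (t' q).2) := Poly.snd ht'
  have hk : ∀ n : ℕ, NPC.Poly (fun q => decide ((t q).1 = n)) := fun n =>
    Poly.decide_eq k (NPC.Poly.const n)
  have hk' : ∀ n : ℕ, NPC.Poly (fun q => decide ((t' q).1 = n)) := fun n =>
    Poly.decide_eq k' (NPC.Poly.const n)
  have hww : NPC.Poly (fun q => decide ((t q).2 = (t' q).2)) := Poly.decide_eq w w'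
  refine Poly.or (Poly.and (Poly.and (Poly.decide_le k (NPC.Poly.const 2))
    (Poly.decide_le k' (NPC.Poly.const 2))) (Poly.and (Poly.or (Poly.decide_eq r'
      (Poly.add r (NPC.Poly.const 1))) (Poly.and (Poly.decide_eq (Poly.add r (NPC.Poly.const 1)) hR)
      (Poly.decide_eq r' (NPC.Poly.const 0)))) (Poly.not (Poly.and (Poly.and (hk 1) (hk' 1))
      (Poly.and (Poly.decide_eq (Poly.fst w) (Poly.fst w'))
        (Poly.not (Poly.decide_eq (Poly.fst (Poly.snd w)) (Poly.fst (Poly.snd w')))))))))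
    (Poly.or (Poly.and (Poly.and (hk 3) (hk' 4)) hww) (Poly.and (Poly.or (hk' 3) (hk' 4))
      (Poly.or (Poly.and (hk 1) hww) (Poly.or (Poly.and f (Poly.and (hk 2)
        (Poly.decide_eq (Poly.snd (Poly.snd w)) (Poly.snd (Poly.snd w')))))
        (Poly.and (Poly.not f) (Poly.and (hk 5) hww))))))

theorem pGad {ls : α → List (Bool × ℕ)} {x p : α → ℕ} (b : Bool) (hls : NPC.Poly ls)
    (hx : NPC.Poly x) (hp : NPC.Poly p) : NPC.Poly (fun q => gad (ls q) (x q) b (p q)) := by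
  have hb : NPC.Poly (fun _ : α => b) := NPC.Poly.const b
  exact Poly.cons (pV hx hb hp) (Poly.cons (pU0 hx hb hp) (Poly.cons (pU1 hx hb hp)
    (Poly.ite (Poly.decide_bool (pFalsT hls (Poly.pair (NPC.Poly.const 0)
      (Poly.pair hx (Poly.pair hb hp))))) (NPC.Poly.const [])
      (Poly.cons (pD hx hb hp) (NPC.Poly.const [])))))

theorem pVerts {N : α → ℕ} {ls : α → List (Bool × ℕ)} (hN : UPoly N) (hls : NPC.Poly ls) :
    NPC.Poly (fun q => verts (N q) (ls q)) := by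
  have h1 : NPC.Poly (fun q => (List.range (N q)).map c) :=
    NPC.Poly.map (F := fun _ p => c p) hN.range (pC (Poly.snd Poly.id))
  have h2 : NPC.Poly (fun r : (α × ℕ) × ℕ => gad (ls r.1.1) r.1.2 false r.2 ++
      gad (ls r.1.1) r.1.2 true r.2) :=
    Poly.append (pGad false (hls.comp (Poly.fst (Poly.fst Poly.id))) (Poly.snd (Poly.fst Poly.id))
      (Poly.snd Poly.id)) (pGad true (hls.comp (Poly.fst (Poly.fst Poly.id)))
      (Poly.snd (Poly.fst Poly.id)) (Poly.snd Poly.id))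
  have h3 : NPC.Poly (fun r : α × ℕ => (List.range (N r.1)).flatMap fun p =>
      gad (ls r.1) r.2 false p ++ gad (ls r.1) r.2 true p) :=
    Poly.flatMap (l := fun r : α × ℕ => List.range (N r.1))
      (F := fun r p => gad (ls r.1) r.2 false p ++ gad (ls r.1) r.2 true p)
      (hN.range.comp (Poly.fst Poly.id)) h2
  have h4 : NPC.Poly (fun q => (List.range (N q)).flatMap fun x =>
      (List.range (N q)).flatMap fun p => gad (ls q) x false p ++ gad (ls q) x true p) :=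
    Poly.flatMap (l := fun q => List.range (N q))
      (F := fun q x => (List.range (N q)).flatMap fun p =>
        gad (ls q) x false p ++ gad (ls q) x true p) hN.range h3
  exact Poly.cons (pLab (f := fun _ => s) (NPC.Poly.const (0, 0, false, 0))) (Poly.append h1 h4)

theorem pLits : NPC.Poly lits :=
  Poly.flatMap (F := fun _ (c : NPC.Lit ℕ × NPC.Lit ℕ × NPC.Lit ℕ) => [c.1, c.2.1, c.2.2]) Poly.id
    (CL.pList3 (Poly.fst (Poly.snd Poly.id)) (Poly.fst (Poly.snd (Poly.snd Poly.id)))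
      (Poly.snd (Poly.snd (Poly.snd Poly.id))))

theorem pRed : NPC.Poly red := by
  have hl : UPoly (fun φ : List (NPC.Lit ℕ × NPC.Lit ℕ × NPC.Lit ℕ) => φ.length) :=
    UPoly.length Poly.id
  have hN : UPoly (fun φ : List (NPC.Lit ℕ × NPC.Lit ℕ × NPC.Lit ℕ) => 3 * φ.length) :=
    UPoly.mul (UPoly.const 3) hl
  have hR : NPC.Poly (fun φ : List (NPC.Lit ℕ × NPC.Lit ℕ × NPC.Lit ℕ) => layers φ.length) :=
    Poly.add (Poly.add (NPC.Poly.const 1) (Poly.mul hN.toPoly hN.toPoly)) hl.toPoly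
  have hv := pVerts hN pLits
  have h1 : NPC.Poly (fun r : (List (NPC.Lit ℕ × NPC.Lit ℕ × NPC.Lit ℕ) × Lab) × Lab =>
      arcT (3 * r.1.1.length) (layers r.1.1.length) (lits r.1.1) (enc r.1.2) (enc r.2)) :=
    pArcT (hN.toPoly.comp (Poly.fst (Poly.fst Poly.id))) (hR.comp (Poly.fst (Poly.fst Poly.id)))
      (pLits.comp (Poly.fst (Poly.fst Poly.id))) (pEnc.comp (Poly.snd (Poly.fst Poly.id)))
      (pEnc.comp (Poly.snd Poly.id))
  have h2 : NPC.Poly (fun r : List (NPC.Lit ℕ × NPC.Lit ℕ × NPC.Lit ℕ) × Lab =>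
      (verts (3 * r.1.length) (lits r.1)).map fun a' =>
        arcT (3 * r.1.length) (layers r.1.length) (lits r.1) (enc r.2) (enc a')) :=
    NPC.Poly.map (l := fun r : List (NPC.Lit ℕ × NPC.Lit ℕ × NPC.Lit ℕ) × Lab =>
      verts (3 * r.1.length) (lits r.1)) (F := fun r a' =>
        arcT (3 * r.1.length) (layers r.1.length) (lits r.1) (enc r.2) (enc a'))
      (hv.comp (Poly.fst Poly.id)) h1
  exact NPC.Poly.map (l := fun φ => verts (3 * φ.length) (lits φ)) (F := fun φ a =>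
    (verts (3 * φ.length) (lits φ)).map fun a' =>
        arcT (3 * φ.length) (layers φ.length) (lits φ) (enc a) (enc a')) hv h2

/-- **Deciding property `Π` is NP-hard.** -/
theorem hardI_factor : HardI (fun M : List (List Bool) => HasDirectedFactor (matArc M)) :=
  (HardPr.trans (Pr' := fun _ => True) hardPr_SAT3b pRed (fun _ _ => trivial)
    (fun φ h => red_spec φ h.2.1 h.2.2)).toHardI

end Pool.Agent.K7.H42.TF
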