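import Pool.Agent.K7.H42.TF.Core
import Pool.Agent.NPC.Sat2
import Pool.Agent.NPC.Dec
import Pool.Agent.H622R2.MatGraph

set_option autoImplicit false

/-!
# 2-factors with one prescribed directed cycle: the reduction from 3SAT
-/

namespace Pool.Agent.K7.H42.TF

open Pool.Agent.NPC Pool.Agent.H622R2

/-- The digraph with adjacency matrix `M` (without loops). -/
def matArc (M : List (List Bool)) (i j : Fin M.length) : Prop := i ≠ j ∧ entry M i j = true

namespace Lab

/-- Labels as tuples. -/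
def enc : Lab → ℕ × ℕ × Bool × ℕ
  | s => (0, 0, false, 0)
  | v x b p => (1, x, b, p)
  | c p => (2, 0, false, p)
  | u false x b p => (3, x, b, p)
  | u true x b p => (4, x, b, p)
  | d x b p => (5, x, b, p)

theorem enc_injective : Function.Injective enc := by
  intro a a' h
  cases a with
  | u k x b p =>
    cases a' with
    | u k' x' b' p' => cases k <;> cases k' <;> simp_all [enc]
    | _ => cases k <;> simp_all [enc]
  | _ =>
    cases a' with
    | u k' x' b' p' => cases k' <;> simp_all [enc]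
    | _ => simp_all [enc]

instance : TEnc Lab := ⟨fun a => toT (enc a), fun _ _ h => enc_injective (TEnc.inj h)⟩

/-- The layer, on tuples. -/
def rankT (N : ℕ) (t : ℕ × ℕ × Bool × ℕ) : ℕ :=
  if t.1 = 0 then 0 else if t.1 = 1 then 1 + t.2.1 * N + t.2.2.2 else
    if t.1 = 2 then 1 + N * N + t.2.2.2 / 3 else 0

theorem rankT_enc (N : ℕ) (a : Lab) : rankT N (enc a) = rank N a := by
  cases a with
  | u k x b p => cases k <;> rfl
  | _ => rfl

/-- The test for falsified literals, on tuples. -/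
def falsT (ls : List (Bool × ℕ)) (t : ℕ × ℕ × Bool × ℕ) : Bool :=
  decide (ls.getD t.2.2.2 (true, 0) = (!t.2.2.1, t.2.1))

/-- The test for arcs. -/
def arcT (N R : ℕ) (ls : List (Bool × ℕ)) (t t' : ℕ × ℕ × Bool × ℕ) : Bool :=
  ((decide (t.1 ≤ 2) && decide (t'.1 ≤ 2)) &&
    ((decide (rankT N t' = rankT N t + 1) ||
      (decide (rankT N t + 1 = R) && decide (rankT N t' = 0))) &&
      !((decide (t.1 = 1) && decide (t'.1 = 1)) &&
        (decide (t.2.1 = t'.2.1) && !decide (t.2.2.1 = t'.2.2.1))))) ||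
  (((decide (t.1 = 3) && decide (t'.1 = 4)) && decide (t.2 = t'.2)) ||
  ((decide (t'.1 = 3) || decide (t'.1 = 4)) &&
    ((decide (t.1 = 1) && decide (t.2 = t'.2)) ||
      ((falsT ls t' && (decide (t.1 = 2) && decide (t.2.2.2 = t'.2.2.2))) ||
        (!falsT ls t' && (decide (t.1 = 5) && decide (t.2 = t'.2)))))))

theorem arcT_enc (N R : ℕ) (ls : List (Bool × ℕ)) (a a' : Lab) :
    arcT N R ls (enc a) (enc a') = true ↔ A N R (fun p => ls.getD p (true, 0)) a a' := by
  have hfal : ∀ x b p, falsT ls (3, x, b, p) = true ↔ fals (fun p => ls.getD p (true, 0)) x b p := by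
    intro x b p
    simp [falsT, fals]
  have hfal' : ∀ x b p, falsT ls (4, x, b, p) = true ↔ fals (fun p => ls.getD p (true, 0)) x b p := by
    intro x b p
    simp [falsT, fals]
  set lt : ℕ → Bool × ℕ := fun p => ls.getD p (true, 0) with hlt
  clear_value lt
  have hA : A N R lt a a' ↔
    ((Main a ∧ Main a' ∧ Next R (rankT N (enc a)) (rankT N (enc a')) ∧
    ∀ x b p b' p', a = v x b p → a' = v x b' p' → b = b') ∨
    (∃ x b p, a = u false x b p ∧ a' = u true x b p) ∨
    (∃ k x b p, a' = u k x b p ∧ (a = v x b p ∨ (fals lt x b p ∧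
      a = c p) ∨ (¬ fals lt x b p ∧ a = d x b p)))) := by
    unfold A
    rw [rankT_enc, rankT_enc]
    refine or_congr_right (or_congr_right ?_)
    refine exists_congr fun k => exists_congr fun x => exists_congr fun b => exists_congr fun p => ?_
    refine and_congr_right fun _ => or_congr_right ?_
    unfold mate
    by_cases h : fals lt x b p <;> simp [h]
  have hu : ∀ (Q : Bool → ℕ → Bool → ℕ → Prop) (k' x' : _) (b' : Bool) (p' : ℕ),
      (∃ k x b p, u k' x' b' p' = u k x b p ∧ Q k x b p) ↔ Q k' x' b' p' := by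
    intro Q k' x' b' p'
    constructor
    · rintro ⟨k, x, b, p, h, hQ⟩
      simp only [u.injEq] at h
      obtain ⟨rfl, rfl, rfl, rfl⟩ := h
      exact hQ
    · intro h
      exact ⟨_, _, _, _, rfl, h⟩
  have hu2 : ∀ (x0 : ℕ) (b0 : Bool) (p0 : ℕ) (a' : Lab),
      (∃ x b p, u false x0 b0 p0 = u false x b p ∧ a' = u true x b p) ↔ a' = u true x0 b0 p0 := by
    intro x0 b0 p0 a'
    constructor
    · rintro ⟨x, b, p, h, hQ⟩
      simp only [u.injEq, true_and] at h
      obtain ⟨rfl, rfl, rfl⟩ := h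
      exact hQ
    · intro h
      exact ⟨_, _, _, rfl, h⟩
  have hv : ∀ x0 b0 p0 x1 b1 p1, (∀ x b p b' p', v x0 b0 p0 = v x b p → v x1 b1 p1 = v x b' p' →
      b = b') ↔ (x0 = x1 → b0 = b1) := by
    intro x0 b0 p0 x1 b1 p1
    constructor
    · rintro h rfl
      exact h _ _ _ _ _ rfl rfl
    · intro h x b p b' p' h1 h2
      simp only [v.injEq] at h1 h2
      obtain ⟨rfl, rfl, rfl⟩ := h1
      obtain ⟨rfl, rfl, rfl⟩ := h2
      exact h rfl
  have hc : ∀ x y : ℕ, (x = y) = (y = x) := fun x y => propext eq_comm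
  have hcb : ∀ x y : Bool, (x = y) = (y = x) := fun x y => propext eq_comm
  rw [hA]
  clear hA
  unfold arcT
  generalize rankT N (enc a) = r
  generalize rankT N (enc a') = r'
  cases a with
  | u k x b p =>
    cases k
    · rw [hu2]
      cases a' with
      | u k' x' b' p' =>
        rw [hu]
        cases k'
        · simp [enc, Main]
        · simp [enc, Main, hc x x', hc p p', hcb b b']
      | _ => simp [enc, Main]
    · cases a' with
      | u k' x' b' p' => rw [hu]; cases k' <;> simp [enc, Main]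
      | _ => simp [enc, Main]
  | s =>
    cases a' with
    | u k' x' b' p' => cases k' <;> simp [enc, Main]
    | _ => simp [enc, Main, Next]
  | v x b p =>
    cases a' with
    | u k' x' b' p' => rw [hu]; cases k' <;> simp [enc, Main]
    | v x' b' p' =>
      rw [hv]
      simp only [enc, Main, Next]
      by_cases h1 : x = x'
      · cases b <;> cases b' <;> simp [h1]
      · simp [h1]
    | _ => simp [enc, Main, Next]
  | c p =>
    cases a' with
    | u k' x' b' p' =>
      rw [hu]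
      cases k'
      · simp [enc, Main, hfal]
      · simp [enc, Main, hfal']
    | _ => simp [enc, Main, Next]
  | d x b p =>
    cases a' with
    | u k' x' b' p' =>
      rw [hu]
      cases k'
      · simp only [enc, Main, ← hfal]
        by_cases h1 : x = x' ∧ b = b' ∧ p = p'
        · obtain ⟨rfl, rfl, rfl⟩ := h1
          simp
        · simp [h1]
      · simp only [enc, Main, ← hfal']
        by_cases h1 : x = x' ∧ b = b' ∧ p = p'
        · obtain ⟨rfl, rfl, rfl⟩ := h1
          simp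
        · simp [h1]
    | _ => simp [enc, Main]

end Lab

open Lab

/-! ### The list of vertices -/

/-- The gadget of `(x, b, p)`. -/
def gad (ls : List (Bool × ℕ)) (x : ℕ) (b : Bool) (p : ℕ) : List Lab :=
  v x b p :: u false x b p :: u true x b p ::
    (if falsT ls (0, x, b, p) = true then [] else [d x b p])

/-- The vertices. -/
def verts (N : ℕ) (ls : List (Bool × ℕ)) : List Lab :=
  s :: ((List.range N).map c ++ (List.range N).flatMap fun x =>
    (List.range N).flatMap fun p => gad ls x false p ++ gad ls x true p)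

theorem falsT_iff (ls : List (Bool × ℕ)) (x : ℕ) (b : Bool) (p : ℕ) :
    falsT ls (0, x, b, p) = true ↔ fals (fun p => ls.getD p (true, 0)) x b p := by
  simp [falsT, fals]

theorem mem_gad {ls : List (Bool × ℕ)} {x : ℕ} {b : Bool} {p : ℕ} {a : Lab} :
    a ∈ gad ls x b p ↔ a = v x b p ∨ (∃ k, a = u k x b p) ∨
      (a = d x b p ∧ ¬ fals (fun p => ls.getD p (true, 0)) x b p) := by
  rw [← falsT_iff]
  unfold gad
  by_cases h : falsT ls (0, x, b, p) = true
  · simp [h]
  · simp [h]
    tauto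

theorem mem_verts {N : ℕ} {ls : List (Bool × ℕ)} {a : Lab} :
    a ∈ verts N ls ↔ Ok N (fun p => ls.getD p (true, 0)) a := by
  unfold verts
  simp only [List.mem_cons, List.mem_append, List.mem_map, List.mem_range, List.mem_flatMap,
    mem_gad]
  constructor
  · rintro (rfl | ⟨p, hp, rfl⟩ | ⟨x, hx, p, hp, (rfl | ⟨k, rfl⟩ | ⟨rfl, h⟩) |
      (rfl | ⟨k, rfl⟩ | ⟨rfl, h⟩)⟩)
    · trivial
    · exact hp
    · exact ⟨hx, hp⟩
    · exact ⟨hx, hp⟩
    · exact ⟨hx, hp, h⟩
    · exact ⟨hx, hp⟩
    · exact ⟨hx, hp⟩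
    · exact ⟨hx, hp, h⟩
  · intro h
    cases a with
    | s => exact Or.inl rfl
    | v x b p =>
      refine Or.inr (Or.inr ⟨x, h.1, p, h.2, ?_⟩)
      cases b
      · exact Or.inl (Or.inl rfl)
      · exact Or.inr (Or.inl rfl)
    | c p => exact Or.inr (Or.inl ⟨p, h, rfl⟩)
    | u k x b p =>
      refine Or.inr (Or.inr ⟨x, h.1, p, h.2, ?_⟩)
      cases b
      · exact Or.inl (Or.inr (Or.inl ⟨k, rfl⟩))
      · exact Or.inr (Or.inr (Or.inl ⟨k, rfl⟩))
    | d x b p =>
      refine Or.inr (Or.inr ⟨x, h.1, p, h.2.1, ?_⟩)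
      cases b
      · exact Or.inl (Or.inr (Or.inr ⟨rfl, h.2.2⟩))
      · exact Or.inr (Or.inr (Or.inr ⟨rfl, h.2.2⟩))

theorem nodup_gad (ls : List (Bool × ℕ)) (x : ℕ) (b : Bool) (p : ℕ) : (gad ls x b p).Nodup := by
  unfold gad
  split_ifs <;> simp

theorem nodup_verts (N : ℕ) (ls : List (Bool × ℕ)) : (verts N ls).Nodup := by
  unfold verts
  rw [List.nodup_cons, List.nodup_append]
  refine ⟨?_, ?_, ?_, ?_⟩
  · simp only [List.mem_append, List.mem_map, List.mem_flatMap, mem_gad]
    rintro (⟨p, hp, h⟩ | ⟨x, hx, p, hp, (h | ⟨k, h⟩ | ⟨h, _⟩) | (h | ⟨k, h⟩ | ⟨h, _⟩)⟩) <;> simp at h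
  · exact List.nodup_range.map (fun a b h => by simpa using h)
  · rw [List.nodup_flatMap]
    refine ⟨fun x _ => ?_, ?_⟩
    · rw [List.nodup_flatMap]
      refine ⟨fun p _ => ?_, ?_⟩
      · rw [List.nodup_append]
        refine ⟨nodup_gad _ _ _ _, nodup_gad _ _ _ _, ?_⟩
        intro a ha b hb
        rw [mem_gad] at ha hb
        rintro rfl
        rcases ha with rfl | ⟨k, rfl⟩ | ⟨rfl, _⟩ <;> simp at hb
      · refine List.nodup_range.imp fun {p p'} hne => ?_
        intro a ha hb
        simp only [List.mem_append, mem_gad] at ha hb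
        rcases ha with (rfl | ⟨k, rfl⟩ | ⟨rfl, _⟩) | (rfl | ⟨k, rfl⟩ | ⟨rfl, _⟩) <;>
          simp [hne] at hb
    · refine List.nodup_range.imp fun {x x'} hne => ?_
      intro a ha hb
      simp only [List.mem_flatMap, List.mem_append, mem_gad] at ha hb
      obtain ⟨p, _, ha⟩ := ha
      obtain ⟨p', _, hb⟩ := hb
      rcases ha with (rfl | ⟨k, rfl⟩ | ⟨rfl, _⟩) | (rfl | ⟨k, rfl⟩ | ⟨rfl, _⟩) <;>
          simp [hne] at hb
  · intro a ha b hb
    simp only [List.mem_map, List.mem_flatMap, List.mem_append, mem_gad] at ha hb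
    obtain ⟨q, _, rfl⟩ := ha
    rintro rfl
    obtain ⟨x, _, p, _, hb⟩ := hb
    simp at hb

/-! ### The formula -/

/-- The literals of a formula. -/
def lits (φ : List (NPC.Lit ℕ × NPC.Lit ℕ × NPC.Lit ℕ)) : List (Bool × ℕ) :=
  φ.flatMap fun c => [c.1, c.2.1, c.2.2]

theorem lits_getD (φ : List (NPC.Lit ℕ × NPC.Lit ℕ × NPC.Lit ℕ)) (i j : ℕ) (hi : i < φ.length)
    (hj : j < 3) (dd : Bool × ℕ) : (lits φ).getD (3 * i + j) dd =
      [φ[i].1, φ[i].2.1, φ[i].2.2].getD j dd := by
  induction φ generalizing i with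
  | nil => simp at hi
  | cons c φ ih =>
    have h1 : lits (c :: φ) = [c.1, c.2.1, c.2.2] ++ lits φ := by simp [lits]
    rw [h1]
    cases i with
    | zero =>
      rw [List.getD_append _ _ _ _ (by simpa using hj)]
      simp
    | succ i =>
      rw [List.getD_append_right _ _ _ _ (by simp; omega)]
      have h2 : 3 * (i + 1) + j - [c.1, c.2.1, c.2.2].length = 3 * i + j := by simp; omega
      rw [h2, ih i (by simpa using hi)]
      rfl

theorem sat_iff (φ : List (NPC.Lit ℕ × NPC.Lit ℕ × NPC.Lit ℕ)) :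
    SAT3 φ ↔ ∃ τ : ℕ → Bool, ∀ i < φ.length, ∃ p, p / 3 = i ∧
      τ ((lits φ).getD p (true, 0)).2 = ((lits φ).getD p (true, 0)).1 := by
  constructor
  · rintro ⟨τ, hτ⟩
    refine ⟨τ, fun i hi => ?_⟩
    rcases hτ φ[i] (List.getElem_mem hi) with h | h | h
    · refine ⟨3 * i + 0, by omega, ?_⟩
      rw [lits_getD φ i 0 hi (by norm_num)]
      exact h
    · refine ⟨3 * i + 1, by omega, ?_⟩
      rw [lits_getD φ i 1 hi (by norm_num)]
      exact h
    · refine ⟨3 * i + 2, by omega, ?_⟩
      rw [lits_getD φ i 2 hi (by norm_num)]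
      exact h
  · rintro ⟨τ, hτ⟩
    refine ⟨τ, fun c hc => ?_⟩
    obtain ⟨i, hi, rfl⟩ := List.getElem_of_mem hc
    obtain ⟨p, hp, h⟩ := hτ i hi
    obtain ⟨j, hj, rfl⟩ : ∃ j, j < 3 ∧ p = 3 * i + j := ⟨p % 3, Nat.mod_lt _ (by norm_num), by omega⟩
    rw [lits_getD φ i j hi hj] at h
    interval_cases j
    · exact Or.inl h
    · exact Or.inr (Or.inl h)
    · exact Or.inr (Or.inr h)

/-- The number of layers. -/
def layers (n : ℕ) : ℕ := 1 + (3 * n) * (3 * n) + n

/-- The reduction. -/
def red (φ : List (NPC.Lit ℕ × NPC.Lit ℕ × NPC.Lit ℕ)) : List (List Bool) :=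
  mat (verts (3 * φ.length) (lits φ)) fun a a' =>
    arcT (3 * φ.length) (layers φ.length) (lits φ) (enc a) (enc a')

theorem A_irrefl {N R : ℕ} (hR : 1 < R) (lt : ℕ → Bool × ℕ) (a : Lab) : ¬ A N R lt a a := by
  rintro (⟨_, _, h | h, _⟩ | ⟨x, b, p, rfl, h⟩ | ⟨k, x, b, p, rfl, h | h⟩)
  · omega
  · omega
  · simp at h
  · simp at h
  · rcases main_mate_v lt x b p with ⟨h3, _⟩ | ⟨h3, _⟩ <;> rw [h3] at h <;> simp at h

/-- The digraph of the matrix is the digraph of the labels. -/
theorem red_iff (φ : List (NPC.Lit ℕ × NPC.Lit ℕ × NPC.Lit ℕ)) (hφ : φ ≠ []) :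
    HasDirectedFactor (matArc (red φ)) ↔
      HasDirectedFactor (fun a a' : {a // Ok (3 * φ.length) (fun p => (lits φ).getD p (true, 0)) a} =>
        A (3 * φ.length) (layers φ.length) (fun p => (lits φ).getD p (true, 0)) a a') := by
  have hlen : 0 < φ.length := List.length_pos_iff.2 hφ
  set vs := verts (3 * φ.length) (lits φ) with hvs
  set adj : Lab → Lab → Bool := fun a a' =>
    arcT (3 * φ.length) (layers φ.length) (lits φ) (enc a) (enc a') with hadj
  have hnd : vs.Nodup := nodup_verts _ _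
  let e1 : Fin (mat vs adj).length ≃ {x // x ∈ vs} :=
    (finCongr (mat_length vs adj)).trans (List.Nodup.getEquiv vs hnd)
  let e2 : {x // x ∈ vs} ≃ {a // Ok (3 * φ.length) (fun p => (lits φ).getD p (true, 0)) a} :=
    Equiv.subtypeEquivRight fun a => mem_verts
  have hA : ∀ i j : Fin (mat vs adj).length, matArc (mat vs adj) i j ↔
      A (3 * φ.length) (layers φ.length) (fun p => (lits φ).getD p (true, 0))
        ((e1.trans e2) i).1 ((e1.trans e2) j).1 := by
    intro i j
    have hi : i.1 < vs.length := lt_of_lt_of_eq i.2 (mat_length vs adj)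
    have hj : j.1 < vs.length := lt_of_lt_of_eq j.2 (mat_length vs adj)
    have h1 : ((e1.trans e2) i).1 = vs[i.1] := rfl
    have h2 : ((e1.trans e2) j).1 = vs[j.1] := rfl
    rw [matArc, entry_mat _ _ _ _ hi hj, h1, h2]
    change i ≠ j ∧ arcT (3 * φ.length) (layers φ.length) (lits φ) (enc vs[i.1]) (enc vs[j.1]) =
      true ↔ _
    rw [arcT_enc]
    constructor
    · exact fun h => h.2
    · intro h
      refine ⟨?_, h⟩
      rintro rfl
      refine A_irrefl ?_ _ _ h
      unfold layers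
      nlinarith
  constructor
  · exact fun h => h.congr (e1.trans e2) hA
  · intro h
    refine h.congr (e1.trans e2).symm fun a b => ?_
    have := hA ((e1.trans e2).symm a) ((e1.trans e2).symm b)
    rw [Equiv.apply_symm_apply, Equiv.apply_symm_apply] at this
    exact this.symm

theorem red_spec (φ : List (NPC.Lit ℕ × NPC.Lit ℕ × NPC.Lit ℕ)) (hb : Bounded3 φ) (hφ : φ ≠ []) :
    SAT3 φ ↔ HasDirectedFactor (matArc (red φ)) := by
  have hlen : 0 < φ.length := List.length_pos_iff.2 hφ
  have hlt : ∀ p < 3 * φ.length, ((lits φ).getD p (true, 0)).2 < 3 * φ.length := by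
    intro p hp
    obtain ⟨i, j, hj, rfl⟩ : ∃ i j, j < 3 ∧ p = 3 * i + j :=
      ⟨p / 3, p % 3, Nat.mod_lt _ (by norm_num), by omega⟩
    have hi : i < φ.length := by omega
    rw [lits_getD φ i j hi hj]
    obtain ⟨h1, h2, h3⟩ := hb φ[i] (List.getElem_mem hi)
    interval_cases j
    · exact h1
    · exact h2
    · exact h3
  rw [red_iff φ hφ, sat_iff]
  constructor
  · rintro ⟨τ, hτ⟩
    choose! q hq hq' using hτ
    exact forward rfl hlen hlt hq hq'
  · intro h
    exact backward rfl hlen hlt h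

end Pool.Agent.K7.H42.TF
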